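import Mathlib

/-!
# Minimal degree of a 4-transitive permutation group

A commutator count: a 4-transitive group of degree `N ≥ 17` with a non-identity element moving
at most half of `N - 4` points contains the alternating group.
-/

namespace Pool.Agent.Conway

open Finset Equiv

variable {X : Type*} [Fintype X] [DecidableEq X]

omit [Fintype X] [DecidableEq X] in
theorem inv_app (x : Perm X) (d : X) : x⁻¹ (x d) = d := by simp

/-- `H` moves any four distinct points to any four distinct points. -/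
def Four (H : Subgroup (Perm X)) : Prop :=
  ∀ a b c d a' b' c' d' : X, a ≠ b → a ≠ c → a ≠ d → b ≠ c → b ≠ d → c ≠ d →
    a' ≠ b' → a' ≠ c' → a' ≠ d' → b' ≠ c' → b' ≠ d' → c' ≠ d' →
    ∃ g ∈ H, g a = a' ∧ g b = b' ∧ g c = c' ∧ g d = d'

open Classical in
/-- The elements of `H` sending `f` to `a` and `u` to `b`. -/
noncomputable def cos (H : Subgroup (Perm X)) (f u a b : X) : Finset (Perm X) :=
  univ.filter (fun x => x ∈ H ∧ x f = a ∧ x u = b)

theorem mem_cos {H : Subgroup (Perm X)} {f u a b : X} {x : Perm X} :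
    x ∈ cos H f u a b ↔ x ∈ H ∧ x f = a ∧ x u = b := by
  simp [cos]

/-- The number of elements of the coset with two more prescribed values. -/
noncomputable def pc (H : Subgroup (Perm X)) (f u a b d d' e e' : X) : ℕ :=
  ((cos H f u a b).filter (fun x => x d = e ∧ x d' = e')).card

theorem pc_le {H : Subgroup (Perm X)} (h4 : Four H) {f u a b : X} (hfu : f ≠ u) (hab : a ≠ b)
    {d d' e e' p p' q q' : X}
    (h1 : f ≠ d) (h2 : f ≠ d') (h3 : u ≠ d) (h5 : u ≠ d') (h6 : d ≠ d')
    (i1 : a ≠ e) (i2 : a ≠ e') (i3 : b ≠ e) (i5 : b ≠ e') (i6 : e ≠ e')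
    (j1 : f ≠ p) (j2 : f ≠ p') (j3 : u ≠ p) (j5 : u ≠ p') (j6 : p ≠ p')
    (k1 : a ≠ q) (k2 : a ≠ q') (k3 : b ≠ q) (k5 : b ≠ q') (k6 : q ≠ q') :
    pc H f u a b d d' e e' ≤ pc H f u a b p p' q q' := by
  obtain ⟨s, hs, s1, s2, s3, s4⟩ :=
    h4 f u p p' f u d d' hfu j1 j2 j3 j5 j6 hfu h1 h2 h3 h5 h6
  obtain ⟨t, ht, t1, t2, t3, t4⟩ :=
    h4 a b e e' a b q q' hab i1 i2 i3 i5 i6 hab k1 k2 k3 k5 k6
  unfold pc
  apply Finset.card_le_card_of_injOn (fun x => t * x * s)
  · intro x hx
    simp only [coe_filter, Set.mem_ofPred_eq, mem_cos] at hx ⊢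
    obtain ⟨⟨hx, x1, x2⟩, x3, x4⟩ := hx
    refine ⟨⟨H.mul_mem (H.mul_mem ht hx) hs, ?_, ?_⟩, ?_, ?_⟩ <;>
      simp [Perm.mul_apply, s1, s2, s3, s4, x1, x2, x3, x4, t1, t2, t3, t4]
  · intro x _ y _ hxy
    simpa using hxy

theorem exists_not_mem_three (hN : 4 ≤ Fintype.card X) (a b c : X) :
    ∃ d, a ≠ d ∧ b ≠ d ∧ c ≠ d := by
  by_contra h
  push Not at h
  have : (univ : Finset X) ⊆ {a, b, c} := by
    intro d _
    by_cases h1 : a = d
    · simp [h1]
    by_cases h2 : b = d
    · simp [h2]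
    simp [h d h1 h2]
  have h2 := card_le_card this
  have h3 : ({a, b, c} : Finset X).card ≤ 3 := card_le_three
  rw [card_univ] at h2
  omega

theorem exists_const {H : Subgroup (Perm X)} (h4 : Four H) (hN : 4 ≤ Fintype.card X)
    {f u a b : X} (hfu : f ≠ u) (hab : a ≠ b) :
    ∃ c, 0 < c ∧ ∀ d d' e e', f ≠ d → f ≠ d' → u ≠ d → u ≠ d' → d ≠ d' →
      a ≠ e → a ≠ e' → b ≠ e → b ≠ e' → e ≠ e' → pc H f u a b d d' e e' = c := by
  obtain ⟨p, j1, j3, -⟩ := exists_not_mem_three hN f u u
  obtain ⟨p', j2, j5, j6⟩ := exists_not_mem_three hN f u p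
  obtain ⟨q, k1, k3, -⟩ := exists_not_mem_three hN a b b
  obtain ⟨q', k2, k5, k6⟩ := exists_not_mem_three hN a b q
  refine ⟨pc H f u a b p p' q q', ?_, ?_⟩
  · obtain ⟨s, hs, s1, s2, s3, s4⟩ :=
      h4 f u p p' a b q q' hfu j1 j2 j3 j5 j6 hab k1 k2 k3 k5 k6
    unfold pc
    apply card_pos.mpr
    exact ⟨s, by simp [mem_cos, hs, s1, s2, s3, s4]⟩
  · intro d d' e e' h1 h2 h3 h5 h6 i1 i2 i3 i5 i6
    apply le_antisymm
    · exact pc_le h4 hfu hab h1 h2 h3 h5 h6 i1 i2 i3 i5 i6 j1 j2 j3 j5 j6 k1 k2 k3 k5 k6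
    · exact pc_le h4 hfu hab j1 j2 j3 j5 j6 k1 k2 k3 k5 k6 h1 h2 h3 h5 h6 i1 i2 i3 i5 i6

section Counts

variable {H : Subgroup (Perm X)} {f u a b : X} {c : ℕ}

theorem pair_count
    (hc : ∀ d d' e e', f ≠ d → f ≠ d' → u ≠ d → u ≠ d' → d ≠ d' →
      a ≠ e → a ≠ e' → b ≠ e → b ≠ e' → e ≠ e' → pc H f u a b d d' e e' = c)
    {d d' : X} (h1 : f ≠ d) (h2 : f ≠ d') (h3 : u ≠ d) (h5 : u ≠ d') (h6 : d ≠ d')
    (P Q : Finset X) (hPa : a ∉ P) (hPb : b ∉ P) (hQa : a ∉ Q) (hQb : b ∉ Q)
    (hPQ : Disjoint P Q) :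
    ((cos H f u a b).filter (fun x => x d ∈ P ∧ x d' ∈ Q)).card = P.card * Q.card * c := by
  rw [Finset.card_eq_sum_card_fiberwise (f := fun x : Perm X => (x d, x d')) (t := P ×ˢ Q)]
  · rw [← card_product, ← smul_eq_mul, ← sum_const]
    apply sum_congr rfl
    rintro ⟨e, e'⟩ he
    rw [mem_product] at he
    obtain ⟨he, he'⟩ := he
    rw [← hc d d' e e' h1 h2 h3 h5 h6 (by rintro rfl; exact hPa he) (by rintro rfl; exact hQa he')
      (by rintro rfl; exact hPb he) (by rintro rfl; exact hQb he')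
      (by rintro rfl; exact (disjoint_left.mp hPQ he) he')]
    unfold pc
    congr 1
    ext x
    simp only [mem_filter, Prod.mk.injEq]
    constructor
    · rintro ⟨⟨h, -⟩, h'⟩; exact ⟨h, h'⟩
    · rintro ⟨h, h', h''⟩
      exact ⟨⟨h, by rw [h']; exact he, by rw [h'']; exact he'⟩, h', h''⟩
  · intro x hx
    simp only [coe_filter, Set.mem_ofPred_eq] at hx
    simp [hx.2.1, hx.2.2]

theorem pair_count_inv
    (hc : ∀ d d' e e', f ≠ d → f ≠ d' → u ≠ d → u ≠ d' → d ≠ d' →
      a ≠ e → a ≠ e' → b ≠ e → b ≠ e' → e ≠ e' → pc H f u a b d d' e e' = c)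
    {e e' : X} (h1 : a ≠ e) (h2 : a ≠ e') (h3 : b ≠ e) (h5 : b ≠ e') (h6 : e ≠ e')
    (P Q : Finset X) (hPa : f ∉ P) (hPb : u ∉ P) (hQa : f ∉ Q) (hQb : u ∉ Q)
    (hPQ : Disjoint P Q) :
    ((cos H f u a b).filter (fun x => x⁻¹ e ∈ P ∧ x⁻¹ e' ∈ Q)).card = P.card * Q.card * c := by
  rw [Finset.card_eq_sum_card_fiberwise (f := fun x : Perm X => (x⁻¹ e, x⁻¹ e')) (t := P ×ˢ Q)]
  · rw [← card_product, ← smul_eq_mul, ← sum_const]
    apply sum_congr rfl
    rintro ⟨d, d'⟩ he
    rw [mem_product] at he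
    obtain ⟨he, he'⟩ := he
    rw [← hc d d' e e' (by rintro rfl; exact hPa he) (by rintro rfl; exact hQa he')
      (by rintro rfl; exact hPb he) (by rintro rfl; exact hQb he')
      (by rintro rfl; exact (disjoint_left.mp hPQ he) he') h1 h2 h3 h5 h6]
    unfold pc
    congr 1
    ext x
    simp only [mem_filter, Prod.mk.injEq, Perm.inv_eq_iff_eq]
    constructor
    · rintro ⟨⟨h, -⟩, h', h''⟩; exact ⟨h, h'.symm, h''.symm⟩
    · rintro ⟨h, h', h''⟩
      refine ⟨⟨h, ?_, ?_⟩, h'.symm, h''.symm⟩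
      · rw [← h']; simpa using he
      · rw [← h'']; simpa using he'
  · intro x hx
    simp only [coe_filter, Set.mem_ofPred_eq] at hx
    exact mem_coe.mpr (mem_product.mpr ⟨hx.2.1, hx.2.2⟩)

theorem single_count (hN : 4 ≤ Fintype.card X) (hab : a ≠ b)
    (hc : ∀ d d' e e', f ≠ d → f ≠ d' → u ≠ d → u ≠ d' → d ≠ d' →
      a ≠ e → a ≠ e' → b ≠ e → b ≠ e' → e ≠ e' → pc H f u a b d d' e e' = c)
    {d : X} (h1 : f ≠ d) (h3 : u ≠ d)
    (P : Finset X) (hPa : a ∉ P) (hPb : b ∉ P) :
    ((cos H f u a b).filter (fun x => x d ∈ P)).card = P.card * (Fintype.card X - 3) * c := by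
  obtain ⟨d', h2, h5, h6⟩ := exists_not_mem_three hN f u d
  rw [Finset.card_eq_sum_card_fiberwise (f := fun x : Perm X => x d) (t := P)]
  · rw [mul_assoc, ← smul_eq_mul, ← sum_const]
    apply sum_congr rfl
    intro e he
    have hae : a ≠ e := by rintro rfl; exact hPa he
    have hbe : b ≠ e := by rintro rfl; exact hPb he
    have h := pair_count hc h1 h2 h3 h5 h6 {e} ({a, b, e} : Finset X)ᶜ (by simp [hae])
      (by simp [hbe]) (by simp) (by simp) (by simp)
    rw [card_compl, card_eq_three.mpr ⟨a, b, e, hab, hae, hbe, rfl⟩, card_singleton, one_mul] at h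
    rw [← h]
    congr 1
    ext x
    simp only [mem_filter, mem_singleton, mem_compl, mem_insert, not_or, mem_cos]
    constructor
    · rintro ⟨⟨⟨hx, x1, x2⟩, -⟩, x3⟩
      refine ⟨⟨hx, x1, x2⟩, x3, ?_, ?_, ?_⟩
      · rw [← x1]; exact fun h => h2 (x.injective h).symm
      · rw [← x2]; exact fun h => h5 (x.injective h).symm
      · rw [← x3]; exact fun h => h6 (x.injective h).symm
    · rintro ⟨hx, x3, -⟩
      exact ⟨⟨hx, by rw [x3]; exact he⟩, x3⟩
  · intro x hx
    simp only [coe_filter, Set.mem_ofPred_eq] at hx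
    exact hx.2

theorem total_count (hN : 4 ≤ Fintype.card X) (hab : a ≠ b)
    (hc : ∀ d d' e e', f ≠ d → f ≠ d' → u ≠ d → u ≠ d' → d ≠ d' →
      a ≠ e → a ≠ e' → b ≠ e → b ≠ e' → e ≠ e' → pc H f u a b d d' e e' = c) :
    (cos H f u a b).card = (Fintype.card X - 2) * (Fintype.card X - 3) * c := by
  obtain ⟨d, h1, h3, -⟩ := exists_not_mem_three hN f u u
  have h := single_count hN hab hc h1 h3 ({a, b} : Finset X)ᶜ (by simp) (by simp)
  rw [card_compl, card_pair hab] at h
  rw [← h]
  congr 1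
  ext x
  simp only [mem_filter, mem_compl, mem_insert, mem_singleton, not_or, mem_cos]
  constructor
  · rintro ⟨hx, x1, x2⟩
    refine ⟨⟨hx, x1, x2⟩, ?_, ?_⟩
    · rw [← x1]; exact fun h => h1 (x.injective h).symm
    · rw [← x2]; exact fun h => h3 (x.injective h).symm
  · exact fun h => h.1

end Counts

/-- The points moved by the commutator of `g` and its conjugate by `x`. -/
theorem moved_le (g x : Perm X) {f u a : X} (hf : f ∉ g.support)
    (x1 : x f = a) (x2 : x u = g a) :
    (univ.filter (fun y => g ((x * g * x⁻¹) y) ≠ (x * g * x⁻¹) (g y))).card ≤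
      2 + (({g⁻¹ u} : Finset X).filter (fun d => x d ∈ g.supportᶜ)).card
        + ((g.support.erase u).filter (fun d => x d ∈ (g.support.erase a).erase (g a))).card
        + ((((g.support.erase a).erase (g a)).erase (g⁻¹ a)).filter
            (fun e => x⁻¹ e ∈ g.supportᶜ.erase f ∧ x⁻¹ (g e) ∈ g.support.erase u)).card
        + (((g.support.erase u).erase (g⁻¹ u)).filter
            (fun d => x d ∈ g.supportᶜ ∧ x (g d) ∈ (g.support.erase a).erase (g a))).card := by
  set W0 := ({g⁻¹ u} : Finset X).filter (fun d => x d ∈ g.supportᶜ) with hW0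
  set W1 := (g.support.erase u).filter (fun d => x d ∈ (g.support.erase a).erase (g a)) with hW1
  set W2 := (((g.support.erase a).erase (g a)).erase (g⁻¹ a)).filter
    (fun e => x⁻¹ e ∈ g.supportᶜ.erase f ∧ x⁻¹ (g e) ∈ g.support.erase u) with hW2
  set W3 := ((g.support.erase u).erase (g⁻¹ u)).filter
    (fun d => x d ∈ g.supportᶜ ∧ x (g d) ∈ (g.support.erase a).erase (g a)) with hW3
  have hgf : g f = f := by simpa using hf
  have hsub : univ.filter (fun y => g ((x * g * x⁻¹) y) ≠ (x * g * x⁻¹) (g y)) ⊆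
      ({a, g a} : Finset X) ∪ W0.image x ∪ W1.image x ∪ W2 ∪ W3.image x := by
    intro y hy
    simp only [mem_filter, mem_univ, true_and, Perm.mul_apply] at hy
    obtain ⟨d, rfl⟩ : ∃ d, y = x d := ⟨x⁻¹ y, by simp⟩
    simp only [inv_app] at hy
    by_cases ha : x d = a
    · simp [ha]
    by_cases hb : x d = g a
    · simp [hb]
    have hdf : d ≠ f := by rintro rfl; exact ha x1
    have hdu : d ≠ u := by rintro rfl; exact hb x2
    by_cases h1 : g (x d) = x d
    · by_cases h2 : g d = d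
      · exfalso; apply hy; simp [h1, h2]
      · have h3 : g (x (g d)) ≠ x (g d) := by
          intro h; apply hy; simp [h1, h]
        by_cases h4 : d = g⁻¹ u
        · have : x d ∈ W0.image x := by
            apply mem_image_of_mem
            simp [hW0, ← h4, h1]
          simp only [mem_union]; tauto
        · have h5 : g d ≠ u := by
            intro h; apply h4; rw [← h]; simp
          have h6 : g d ≠ f := by
            intro h; apply hdf; apply g.injective; rw [h, hgf]
          have : x d ∈ W3.image x := by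
            apply mem_image_of_mem
            simp only [hW3, mem_filter, mem_erase, Perm.mem_support, mem_compl, not_not]
            refine ⟨⟨h4, hdu, h2⟩, h1, ?_, ?_, h3⟩
            · rw [← x2]; exact fun h => h5 (x.injective h)
            · rw [← x1]; exact fun h => h6 (x.injective h)
          simp only [mem_union]; tauto
    · by_cases h2 : g d = d
      · have h3 : g (x⁻¹ (g (x d))) ≠ x⁻¹ (g (x d)) := by
          intro h; apply hy; rw [h, h2]; simp
        have h4 : x d ≠ g⁻¹ a := by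
          intro h; apply h3; rw [h, ← x1]; simp [hgf]
        have : x d ∈ W2 := by
          simp only [hW2, mem_filter, mem_erase, Perm.mem_support, mem_compl, not_not,
            inv_app]
          refine ⟨⟨h4, hb, ha, h1⟩, ⟨hdf, h2⟩, ?_, h3⟩
          intro h
          apply ha
          apply g.injective
          rw [← x2, ← h]; simp
        simp only [mem_union]; tauto
      · have : x d ∈ W1.image x := by
          apply mem_image_of_mem
          simp only [hW1, mem_filter, mem_erase, Perm.mem_support]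
          exact ⟨⟨hdu, h2⟩, hb, ha, h1⟩
        simp only [mem_union]; tauto
  have h0 : ({a, g a} : Finset X).card ≤ 2 := card_le_two
  have e0 : (W0.image x).card ≤ W0.card := card_image_le
  have e1 : (W1.image x).card ≤ W1.card := card_image_le
  have e3 : (W3.image x).card ≤ W3.card := card_image_le
  have u1 := card_union_le (({a, g a} : Finset X) ∪ W0.image x ∪ W1.image x ∪ W2) (W3.image x)
  have u2 := card_union_le (({a, g a} : Finset X) ∪ W0.image x ∪ W1.image x) W2
  have u3 := card_union_le (({a, g a} : Finset X) ∪ W0.image x) (W1.image x)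
  have u4 := card_union_le ({a, g a} : Finset X) (W0.image x)
  have := card_le_card hsub
  omega

theorem sum_card_filter_swap {A B : Type*} (s : Finset A) (t : Finset B) (r : A → B → Prop)
    [∀ a b, Decidable (r a b)] :
    ∑ a ∈ s, (t.filter (fun b => r a b)).card = ∑ b ∈ t, (s.filter (fun a => r a b)).card := by
  simp only [card_filter]
  exact sum_comm

theorem arith_final (m N : ℕ) (hm : 4 ≤ m) (hN : 2 * m + 4 ≤ N) (hN' : 17 ≤ N)
    (h : m * ((N - 2) * (N - 3)) ≤ 2 * ((N - 2) * (N - 3)) + (N - m) * (N - 3)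
      + (m - 1) * ((m - 2) * (N - 3)) + (m - 2) * ((N - m - 1) * (m - 1))
      + (m - 2) * ((N - m) * (m - 2))) : False := by
  obtain ⟨k, rfl⟩ : ∃ k, m = k + 4 := ⟨m - 4, by omega⟩
  obtain ⟨t, rfl⟩ : ∃ t, N = 2 * k + 12 + t := ⟨N - (2 * k + 12), by omega⟩
  have e1 : 2 * k + 12 + t - 2 = 2 * k + 10 + t := by omega
  have e2 : 2 * k + 12 + t - 3 = 2 * k + 9 + t := by omega
  have e3 : 2 * k + 12 + t - (k + 4) = k + 8 + t := by omega
  have e4 : k + 4 - 1 = k + 3 := by omega
  have e5 : k + 4 - 2 = k + 2 := by omega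
  have e6 : k + 8 + t - 1 = k + 7 + t := by omega
  rw [e1, e2, e3, e4, e5, e6] at h
  rcases Nat.lt_or_ge k 3 with hk | hk
  · interval_cases k
    · obtain ⟨s, rfl⟩ : ∃ s, t = s + 5 := ⟨t - 5, by omega⟩
      nlinarith [Nat.zero_le s, Nat.zero_le (s * s)]
    · obtain ⟨s, rfl⟩ : ∃ s, t = s + 3 := ⟨t - 3, by omega⟩
      nlinarith [Nat.zero_le s, Nat.zero_le (s * s)]
    · obtain ⟨s, rfl⟩ : ∃ s, t = s + 1 := ⟨t - 1, by omega⟩
      nlinarith [Nat.zero_le s, Nat.zero_le (s * s)]
  · obtain ⟨j, rfl⟩ : ∃ j, k = j + 3 := ⟨k - 3, by omega⟩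
    nlinarith [Nat.zero_le j, Nat.zero_le t, Nat.zero_le (j * j), Nat.zero_le (j * t),
      Nat.zero_le (t * t), Nat.zero_le (j * j * t), Nat.zero_le (j * t * t)]

theorem min_support_le_three {H : Subgroup (Perm X)} (h4 : Four H) (hN : 17 ≤ Fintype.card X)
    {g : Perm X} (hg : g ∈ H) (hg1 : g ≠ 1)
    (hmin : ∀ k ∈ H, k ≠ 1 → g.support.card ≤ k.support.card)
    (hm : 2 * g.support.card + 4 ≤ Fintype.card X) : g.support.card ≤ 3 := by
  by_contra hlt
  have hm4 : 4 ≤ g.support.card := by omega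
  obtain ⟨a, ha⟩ : g.support.Nonempty := card_pos.mp (by omega)
  obtain ⟨f, hf⟩ : g.supportᶜ.Nonempty := card_pos.mp (by rw [card_compl]; omega)
  have hf' : f ∉ g.support := by simpa using hf
  have hgf : g f = f := by simpa using hf'
  have hga : g a ≠ a := by simpa using ha
  have hfa : f ≠ a := by rintro rfl; exact hf' ha
  have hb : g a ∈ g.support := by rw [Perm.apply_mem_support]; exact ha
  have hia : g⁻¹ a ∈ g.support := by
    rw [← Perm.apply_mem_support]; simpa using hga
  have hia' : g⁻¹ a ≠ a := by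
    intro h; apply hga; conv_lhs => rw [← h]
    simp
  obtain ⟨c, hc0, hc⟩ := exists_const h4 (by omega) hfa hga.symm
  set S := cos H f a a (g a) with hS
  set N := Fintype.card X with hNdef
  set m := g.support.card with hmdef
  have hlow : ∀ x ∈ S, m ≤
      (univ.filter (fun y => g ((x * g * x⁻¹) y) ≠ (x * g * x⁻¹) (g y))).card := by
    intro x hx
    rw [hS, mem_cos] at hx
    obtain ⟨hx, x1, x2⟩ := hx
    have hh : x * g * x⁻¹ ∈ H := H.mul_mem (H.mul_mem hx hg) (H.inv_mem hx)
    have hk : ((x * g * x⁻¹) * g)⁻¹ * (g * (x * g * x⁻¹)) ∈ H :=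
      H.mul_mem (H.inv_mem (H.mul_mem hh hg)) (H.mul_mem hg hh)
    have hsupp : (((x * g * x⁻¹) * g)⁻¹ * (g * (x * g * x⁻¹))).support =
        univ.filter (fun y => g ((x * g * x⁻¹) y) ≠ (x * g * x⁻¹) (g y)) := by
      ext y
      rw [Perm.mem_support, Perm.mul_apply, Ne, Perm.inv_eq_iff_eq]
      simp [Perm.mul_apply]
    rw [← hsupp]
    apply hmin _ hk
    intro h1
    have h2 : a ∈ (((x * g * x⁻¹) * g)⁻¹ * (g * (x * g * x⁻¹))).support := by
      rw [hsupp]
      simp only [mem_filter, mem_univ, true_and, Perm.mul_apply]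
      have e1 : x⁻¹ a = f := by rw [← x1]; simp
      have e2 : x⁻¹ (g a) = a := by rw [← x2]; simp
      rw [e1, e2, hgf, x1]
      intro h
      exact hga (x.injective (x2.trans h)).symm
    rw [h1] at h2
    simp at h2
  have hup : ∀ x ∈ S,
      (univ.filter (fun y => g ((x * g * x⁻¹) y) ≠ (x * g * x⁻¹) (g y))).card ≤
      2 + (({g⁻¹ a} : Finset X).filter (fun d => x d ∈ g.supportᶜ)).card
        + ((g.support.erase a).filter (fun d => x d ∈ (g.support.erase a).erase (g a))).card
        + ((((g.support.erase a).erase (g a)).erase (g⁻¹ a)).filter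
            (fun e => x⁻¹ e ∈ g.supportᶜ.erase f ∧ x⁻¹ (g e) ∈ g.support.erase a)).card
        + (((g.support.erase a).erase (g⁻¹ a)).filter
            (fun d => x d ∈ g.supportᶜ ∧ x (g d) ∈ (g.support.erase a).erase (g a))).card := by
    intro x hx
    rw [hS, mem_cos] at hx
    exact moved_le g x hf' hx.2.1 hx.2.2
  have hsum := sum_le_sum (fun x hx => (hlow x hx).trans (hup x hx))
  simp only [sum_add_distrib, sum_const, smul_eq_mul] at hsum
  rw [sum_card_filter_swap, sum_card_filter_swap S (g.support.erase a),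
    sum_card_filter_swap S (((g.support.erase a).erase (g a)).erase (g⁻¹ a)),
    sum_card_filter_swap S ((g.support.erase a).erase (g⁻¹ a))] at hsum
  have c1 : (g.support.erase a).card = m - 1 := card_erase_of_mem ha
  have c2 : ((g.support.erase a).erase (g a)).card = m - 2 := by
    rw [card_erase_of_mem (mem_erase.mpr ⟨hga, hb⟩), c1]; omega
  have c3 : ((g.support.erase a).erase (g⁻¹ a)).card = m - 2 := by
    rw [card_erase_of_mem (mem_erase.mpr ⟨hia', hia⟩), c1]; omega
  have c4 : g.supportᶜ.card = N - m := card_compl _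
  have c5 : (g.supportᶜ.erase f).card = N - m - 1 := by rw [card_erase_of_mem hf, c4]
  have c6 : (((g.support.erase a).erase (g a)).erase (g⁻¹ a)).card ≤ m - 2 := by
    rw [← c2]; exact card_erase_le
  have hne : ∀ d ∈ g.support, f ≠ d := by rintro d hd rfl; exact hf' hd
  have t0 : S.card = (N - 2) * (N - 3) * c := total_count (by omega) hga.symm hc
  have s0 : ∑ d ∈ ({g⁻¹ a} : Finset X), (S.filter (fun x => x d ∈ g.supportᶜ)).card
      = (N - m) * (N - 3) * c := by
    rw [sum_singleton, single_count (by omega) hga.symm hc (hne _ hia) hia'.symm _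
      (by simpa using hga) (by simpa using hb), c4]
  have s1 : ∑ d ∈ g.support.erase a,
      (S.filter (fun x => x d ∈ (g.support.erase a).erase (g a))).card
      = (m - 1) * ((m - 2) * (N - 3) * c) := by
    rw [← c1, ← smul_eq_mul, ← sum_const]
    apply sum_congr rfl
    intro d hd
    rw [mem_erase] at hd
    rw [single_count (by omega) hga.symm hc (hne _ hd.2) hd.1.symm _ (by simp) (by simp), c2]
  have s2 : ∑ e ∈ ((g.support.erase a).erase (g a)).erase (g⁻¹ a),
      (S.filter (fun x => x⁻¹ e ∈ g.supportᶜ.erase f ∧ x⁻¹ (g e) ∈ g.support.erase a)).card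
      ≤ (m - 2) * ((N - m - 1) * (m - 1) * c) := by
    refine le_trans (le_of_eq ?_) (Nat.mul_le_mul_right _ c6)
    rw [← smul_eq_mul, ← sum_const]
    apply sum_congr rfl
    intro e he
    simp only [mem_erase] at he
    obtain ⟨e1, e2, e3, e4⟩ := he
    rw [pair_count_inv hc e3.symm (by intro h; apply e1; rw [h]; simp) e2.symm
      (fun h => e3 (g.injective h).symm) (by simpa [eq_comm] using e4) _ _ (by simp)
      (by simp [hga]) (by simp [hgf]) (by simp) ?_, c5, c1]
    rw [disjoint_left]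
    intro y hy hy'
    simp only [mem_erase, mem_compl] at hy hy'
    exact hy.2 hy'.2
  have s3 : ∑ d ∈ (g.support.erase a).erase (g⁻¹ a),
      (S.filter (fun x => x d ∈ g.supportᶜ ∧ x (g d) ∈ (g.support.erase a).erase (g a))).card
      = (m - 2) * ((N - m) * (m - 2) * c) := by
    rw [← c3, ← smul_eq_mul, ← sum_const]
    apply sum_congr rfl
    intro d hd
    simp only [mem_erase] at hd
    obtain ⟨d1, d2, d3⟩ := hd
    rw [pair_count hc (hne _ d3) (hne _ (by rw [Perm.apply_mem_support]; exact d3)) d2.symm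
      (by intro h; apply d1; rw [h]; simp) (by simpa [eq_comm] using d3) _ _
      (by simpa using hga) (by simpa using hb) (by simp) (by simp) ?_, c4, c2, c3]
    rw [disjoint_left]
    intro y hy hy'
    simp only [mem_erase, mem_compl] at hy hy'
    exact hy hy'.2.2
  rw [s0, s1, s3, t0] at hsum
  apply arith_final m N hm4 hm hN
  apply Nat.le_of_mul_le_mul_right _ hc0
  nlinarith [hsum, s2]

/-- A 4-transitive group with a non-identity element of small support contains the
alternating group. -/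
theorem alt_le_of_four {H : Subgroup (Perm X)} (h4 : Four H) (hN : 17 ≤ Fintype.card X)
    {g : Perm X} (hg : g ∈ H) (hg1 : g ≠ 1)
    (hm : 2 * g.support.card + 4 ≤ Fintype.card X) : alternatingGroup X ≤ H := by
  classical
  obtain ⟨k, hk, hmin⟩ := exists_min_image (univ.filter (fun k : Perm X => k ∈ H ∧ k ≠ 1))
    (fun k => k.support.card) ⟨g, by simp [hg, hg1]⟩
  simp only [mem_filter, mem_univ, true_and] at hk hmin
  have hkg := hmin g ⟨hg, hg1⟩
  have h3 := min_support_le_three h4 hN hk.1 hk.2 (fun j hj hj1 => hmin j ⟨hj, hj1⟩) (by omega)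
  have h2 : 2 ≤ k.support.card := Perm.two_le_card_support_of_ne_one hk.2
  have hprim : MulAction.IsPreprimitive H X := by
    apply MulAction.isPreprimitive_of_is_two_pretransitive
    rw [MulAction.is_two_pretransitive_iff]
    intro a b c d hab hcd
    obtain ⟨p, j1, j3, -⟩ := exists_not_mem_three (X := X) (by omega) a b b
    obtain ⟨p', j2, j5, j6⟩ := exists_not_mem_three (X := X) (by omega) a b p
    obtain ⟨q, k1, k3, -⟩ := exists_not_mem_three (X := X) (by omega) c d d
    obtain ⟨q', k2, k5, k6⟩ := exists_not_mem_three (X := X) (by omega) c d q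
    obtain ⟨s, hs, s1, s2, -, -⟩ :=
      h4 a b p p' c d q q' hab j1 j2 j3 j5 j6 hcd k1 k2 k3 k5 k6
    exact ⟨⟨s, hs⟩, s1, s2⟩
  rcases (by omega : k.support.card = 2 ∨ k.support.card = 3) with h | h
  · rw [Perm.subgroup_eq_top_of_isPreprimitive_of_isSwap_mem hprim k
      (Perm.card_support_eq_two.mp h) hk.1]
    exact le_top
  · exact Perm.alternatingGroup_le_of_isPreprimitive_of_isThreeCycle_mem hprim
      (card_support_eq_three_iff.mp h) hk.1

end Pool.Agent.Conway
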