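import Mathlib

/-!
# Supersimple designs, elementary moves and the Conway groupoid
-/

namespace Pool.Agent.Conway

open Finset Equiv

/-- A supersimple `2-(n,4,lam)` design on the point set `P`: a family of 4-subsets (lines) such
that two distinct points lie in exactly `lam` lines and two distinct lines share at most two
points. -/
structure Design (P : Type*) [DecidableEq P] (lam : ℕ) where
  lines : Finset (Finset P)
  card_line : ∀ L ∈ lines, L.card = 4
  pair : ∀ a b : P, a ≠ b → (lines.filter (fun L => a ∈ L ∧ b ∈ L)).card = lam
  simple : ∀ L ∈ lines, ∀ M ∈ lines, L ≠ M → (L ∩ M).card ≤ 2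

variable {P : Type*} [DecidableEq P] {lam : ℕ}

open Classical in
/-- The map underlying the elementary move `[a,b]`: the identity if `a = b`; otherwise it swaps
`a` and `b`, sends `c` to `d` when `{a,b,c,d}` is a line, and fixes all other points. -/
noncomputable def moveFun (D : Design P lam) (a b c : P) : P :=
  if a = b then c else if c = a then b else if c = b then a else
    if h : ∃ d, ({a, b, c, d} : Finset P) ∈ D.lines then h.choose else c

theorem fourth_ne (D : Design P lam) {a b c d : P} (h : ({a, b, c, d} : Finset P) ∈ D.lines) :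
    a ≠ b ∧ a ≠ c ∧ a ≠ d ∧ b ≠ c ∧ b ≠ d ∧ c ≠ d := by
  have h4 := D.card_line _ h
  have key : ∀ x y z : P, ({a, b, c, d} : Finset P) ⊆ {x, y, z} → False := by
    intro x y z hs
    have h1 := card_le_card hs
    have h2 : ({x, y, z} : Finset P).card ≤ 3 := card_le_three
    omega
  refine ⟨?_, ?_, ?_, ?_, ?_, ?_⟩ <;> rintro rfl
  · exact key a c d (by intro x; simp)
  · exact key a b d (by intro x; simp only [mem_insert, mem_singleton]; tauto)
  · exact key a b c (by intro x; simp only [mem_insert, mem_singleton]; tauto)
  · exact key a b d (by intro x; simp)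
  · exact key a b c (by intro x; simp only [mem_insert, mem_singleton]; tauto)
  · exact key a b c (by intro x; simp)

theorem fourth_unique (D : Design P lam) {a b c d e : P}
    (h : ({a, b, c, d} : Finset P) ∈ D.lines) (h' : ({a, b, c, e} : Finset P) ∈ D.lines) :
    d = e := by
  obtain ⟨h1, h2, h3, h4, h5, h6⟩ := fourth_ne D h
  by_cases hLM : ({a, b, c, d} : Finset P) = {a, b, c, e}
  · have : d ∈ ({a, b, c, e} : Finset P) := by rw [← hLM]; simp
    simp only [mem_insert, mem_singleton] at this
    rcases this with h | h | h | h
    · exact absurd h.symm h3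
    · exact absurd h.symm h5
    · exact absurd h.symm h6
    · exact h
  · have h7 := D.simple _ h _ h' hLM
    have h8 : ({a, b, c} : Finset P) ⊆ ({a, b, c, d} : Finset P) ∩ {a, b, c, e} := by
      intro x; simp only [mem_insert, mem_singleton, mem_inter]; tauto
    have h9 := card_le_card h8
    rw [card_eq_three.mpr ⟨a, b, c, h1, h2, h4, rfl⟩] at h9
    omega

theorem moveFun_of_line (D : Design P lam) {a b c d : P}
    (h : ({a, b, c, d} : Finset P) ∈ D.lines) : moveFun D a b c = d := by
  obtain ⟨h1, h2, -, h4, -, -⟩ := fourth_ne D h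
  have hex : ∃ d, ({a, b, c, d} : Finset P) ∈ D.lines := ⟨d, h⟩
  unfold moveFun
  rw [if_neg h1, if_neg h2.symm, if_neg h4.symm, dif_pos hex]
  exact fourth_unique D hex.choose_spec h

theorem moveFun_involutive (D : Design P lam) (a b : P) :
    Function.Involutive (moveFun D a b) := by
  intro c
  by_cases hab : a = b
  · simp [moveFun, hab]
  by_cases hca : c = a
  · simp [moveFun, hab, hca, Ne.symm hab]
  by_cases hcb : c = b
  · simp [moveFun, hab, hcb, Ne.symm hab]
  by_cases hex : ∃ d, ({a, b, c, d} : Finset P) ∈ D.lines
  · obtain ⟨d, hd⟩ := hex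
    rw [moveFun_of_line D hd]
    apply moveFun_of_line
    rwa [pair_comm d c]
  · have : moveFun D a b c = c := by
      unfold moveFun
      rw [if_neg hab, if_neg hca, if_neg hcb, dif_neg hex]
    rw [this, this]

/-- The elementary move `[a,b]` as a permutation of the points. -/
noncomputable def move (D : Design P lam) (a b : P) : Perm P :=
  Function.Involutive.toPerm (moveFun D a b) (moveFun_involutive D a b)

/-- `walk D a [a₁, …, a_k]` is the product `[a,a₁][a₁,a₂]⋯[a_{k-1},a_k]`, the leftmost move
being applied first. -/
noncomputable def walk (D : Design P lam) : P → List P → Perm P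
  | _, [] => 1
  | a, b :: l => (move D a b).trans (walk D b l)

/-- The Conway groupoid at the point `x`: all products `[x,a₁,…,a_k]` with `k ≥ 1`. -/
def groupoid (D : Design P lam) (x : P) : Set (Perm P) :=
  {s | ∃ l : List P, l ≠ [] ∧ s = walk D x l}

end Pool.Agent.Conway
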