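import Mathlib
import Pool.Agent.P.MP_917f1f_al.Defs
import Pool.Agent.P.MP_917f1f_al.Bochert

/-!
# Multiple transitivity of the hole stabiliser
-/

namespace Pool.Agent.Conway

open Finset Equiv

variable {P : Type*} [DecidableEq P] {lam : ℕ}

theorem move_apply (D : Design P lam) (a b c : P) : move D a b c = moveFun D a b c := rfl

theorem move_self (D : Design P lam) (a : P) : move D a a = 1 := by
  ext c; simp [move_apply, moveFun]

theorem move_left (D : Design P lam) (a b : P) : move D a b a = b := by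
  by_cases h : a = b <;> simp [move_apply, moveFun, h]

theorem move_right (D : Design P lam) (a b : P) : move D a b b = a := by
  by_cases h : a = b
  · simp [move_apply, moveFun, h]
  · simp [move_apply, moveFun, h, Ne.symm h]

theorem move_move (D : Design P lam) (a b c : P) : move D a b (move D a b c) = c :=
  moveFun_involutive D a b c

theorem move_mul_self (D : Design P lam) (a b : P) : move D a b * move D a b = 1 := by
  ext c; simp [move_move]

theorem move_fix (D : Design P lam) {a b c : P} (hca : c ≠ a) (hcb : c ≠ b)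
    (h : ¬ ∃ d, ({a, b, c, d} : Finset P) ∈ D.lines) : move D a b c = c := by
  rw [move_apply]
  unfold moveFun
  by_cases hab : a = b
  · rw [if_pos hab]
  · rw [if_neg hab, if_neg hca, if_neg hcb, dif_neg h]

theorem move_comm (D : Design P lam) (a b : P) : move D a b = move D b a := by
  ext c
  by_cases hca : c = a
  · rw [hca, move_left, move_right]
  by_cases hcb : c = b
  · rw [hcb, move_left, move_right]
  by_cases hex : ∃ d, ({a, b, c, d} : Finset P) ∈ D.lines
  · obtain ⟨d, hd⟩ := hex
    rw [move_apply, move_apply, moveFun_of_line D hd, moveFun_of_line D (by rwa [insert_comm])]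
  · rw [move_fix D hca hcb hex, move_fix D hcb hca]
    rintro ⟨d, hd⟩
    exact hex ⟨d, by rwa [insert_comm]⟩

theorem exists_line_of_moved (D : Design P lam) {a b c : P} (hca : c ≠ a) (hcb : c ≠ b)
    (h : move D a b c ≠ c) : ∃ L ∈ D.lines, a ∈ L ∧ b ∈ L ∧ c ∈ L := by
  by_contra hn
  apply h
  apply move_fix D hca hcb
  rintro ⟨d, hd⟩
  exact hn ⟨_, hd, by simp, by simp, by simp⟩

theorem moved_of_line (D : Design P lam) {a b c : P} (hab : a ≠ b) (hca : c ≠ a) (hcb : c ≠ b)
    {L : Finset P} (hL : L ∈ D.lines) (ha : a ∈ L) (hb : b ∈ L) (hc : c ∈ L) :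
    move D a b c ≠ c := by
  have h3 : ({a, b, c} : Finset P).card = 3 :=
    card_eq_three.mpr ⟨a, b, c, hab, hca.symm, hcb.symm, rfl⟩
  have hs : ({a, b, c} : Finset P) ⊆ L := by
    intro x; simp only [mem_insert, mem_singleton]; rintro (rfl | rfl | rfl) <;> assumption
  have h1 : (L \ {a, b, c}).card = 1 := by
    rw [card_sdiff_of_subset hs, D.card_line L hL, h3]
  obtain ⟨d, hd⟩ := card_eq_one.mp h1
  have hL' : L = {a, b, c, d} := by
    rw [← union_sdiff_of_subset hs, hd]
    ext x; simp only [mem_union, mem_insert, mem_singleton]; tauto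
  rw [hL'] at hL
  rw [move_apply, moveFun_of_line D hL]
  exact (fourth_ne D hL).2.2.2.2.2.symm

/-- `Reach D x z s`: the permutation `s` is the product of the moves along a walk from `x`
to `z`. -/
inductive Reach (D : Design P lam) : P → P → Perm P → Prop
  | refl (x : P) : Reach D x x 1
  | cons (x y : P) {z : P} {s : Perm P} : Reach D y z s → Reach D x z (s * move D x y)

theorem Reach.single (D : Design P lam) (x y : P) : Reach D x y (move D x y) := by
  simpa using Reach.cons x y (Reach.refl (D := D) y)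

theorem Reach.trans {D : Design P lam} {x y z : P} {s t : Perm P}
    (h : Reach D x y s) (h' : Reach D y z t) : Reach D x z (t * s) := by
  induction h with
  | refl x => simpa using h'
  | cons x w _ ih => rw [← mul_assoc]; exact Reach.cons x w (ih h')

theorem Reach.symm {D : Design P lam} {x y : P} {s : Perm P}
    (h : Reach D x y s) : Reach D y x s⁻¹ := by
  induction h with
  | refl x => simpa using Reach.refl (D := D) x
  | cons x w _ ih =>
    have : (move D x w)⁻¹ = move D w x := by
      rw [inv_eq_iff_mul_eq_one, move_comm D w x, move_mul_self]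
    rw [mul_inv_rev, this]
    exact ih.trans (Reach.single D w x)

theorem Reach.apply {D : Design P lam} {x y : P} {s : Perm P}
    (h : Reach D x y s) : s x = y := by
  induction h with
  | refl x => rfl
  | cons x w _ ih => rw [Perm.mul_apply, move_left, ih]

theorem reach_walk (D : Design P lam) (x : P) (l : List P) : ∃ z, Reach D x z (walk D x l) := by
  induction l generalizing x with
  | nil => exact ⟨x, Reach.refl x⟩
  | cons b l ih =>
    obtain ⟨z, hz⟩ := ih b
    exact ⟨z, Reach.cons x b hz⟩

theorem Reach.exists_walk {D : Design P lam} {x y : P} {s : Perm P}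
    (h : Reach D x y s) : ∃ l : List P, l ≠ [] ∧ s = walk D x l := by
  induction h with
  | refl x => exact ⟨[x], by simp, by simp [walk, move_self]; rfl⟩
  | cons x w _ ih =>
    obtain ⟨l, -, rfl⟩ := ih
    exact ⟨w :: l, by simp, rfl⟩

theorem mem_groupoid_iff (D : Design P lam) (x : P) (s : Perm P) :
    s ∈ groupoid D x ↔ ∃ z, Reach D x z s := by
  constructor
  · rintro ⟨l, -, rfl⟩; exact reach_walk D x l
  · rintro ⟨z, hz⟩; exact hz.exists_walk

section Cover

theorem cover_degree (D : Design P lam) (T B : Finset P) {u : P} (hu : u ∉ T) (huB : u ∉ B)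
    (hTB : Disjoint T B)
    (h : ∀ v ∈ B, ∃ t ∈ T, ∃ L ∈ D.lines, t ∈ L ∧ u ∈ L ∧ v ∈ L) :
    B.card ≤ 2 * (T.card * lam) := by
  have hsub : B ⊆ T.biUnion (fun t =>
      (D.lines.filter (fun L => t ∈ L ∧ u ∈ L)).biUnion (fun L => L \ {t, u})) := by
    intro v hv
    obtain ⟨t, ht, L, hL, h1, h2, h3⟩ := h v hv
    simp only [mem_biUnion, mem_filter, mem_sdiff, mem_insert, mem_singleton, not_or]
    refine ⟨t, ht, L, ⟨hL, h1, h2⟩, h3, ?_, ?_⟩
    · rintro rfl; exact disjoint_left.mp hTB ht hv
    · rintro rfl; exact huB hv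
  refine (card_le_card hsub).trans (card_biUnion_le.trans ?_)
  have : ∀ t ∈ T, ((D.lines.filter (fun L => t ∈ L ∧ u ∈ L)).biUnion
      (fun L => L \ {t, u})).card ≤ 2 * lam := by
    intro t ht
    have htu : t ≠ u := by rintro rfl; exact hu ht
    refine card_biUnion_le.trans ?_
    have h2 : ∀ L ∈ D.lines.filter (fun L => t ∈ L ∧ u ∈ L), (L \ {t, u}).card = 2 := by
      intro L hL
      rw [mem_filter] at hL
      rw [card_sdiff_of_subset, D.card_line L hL.1, card_pair htu]
      intro x; simp only [mem_insert, mem_singleton]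
      rintro (rfl | rfl)
      · exact hL.2.1
      · exact hL.2.2
    rw [sum_congr rfl h2, sum_const, D.pair t u htu, smul_eq_mul, mul_comm]
  refine (sum_le_sum this).trans ?_
  rw [sum_const, smul_eq_mul]
  exact le_of_eq (by ring)

theorem sum_inter (D : Design P lam) {t : P} (A : Finset P) (ht : t ∉ A) :
    ∑ L ∈ D.lines.filter (fun L => t ∈ L), (L ∩ A).card = A.card * lam := by
  have h1 : ∀ L ∈ D.lines.filter (fun L => t ∈ L),
      (L ∩ A).card = (A.filter (fun u => u ∈ L)).card := by
    intro L _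
    congr 1
    ext x; simp [and_comm]
  rw [sum_congr rfl h1, sum_card_filter_swap, ← smul_eq_mul, ← sum_const]
  apply sum_congr rfl
  intro u hu
  rw [filter_filter]
  exact D.pair t u (by rintro rfl; exact ht hu)

theorem cover_product (D : Design P lam) (T A B : Finset P) (hTA : Disjoint T A)
    (hTB : Disjoint T B) (hAB : Disjoint A B)
    (h : ∀ u ∈ A, ∀ v ∈ B, ∃ t ∈ T, ∃ L ∈ D.lines, t ∈ L ∧ u ∈ L ∧ v ∈ L) :
    3 * (A.card * B.card) ≤ 2 * (T.card * lam) * (A.card + B.card) := by
  have hsub : A ×ˢ B ⊆ T.biUnion (fun t =>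
      (D.lines.filter (fun L => t ∈ L)).biUnion (fun L => (L ∩ A) ×ˢ (L ∩ B))) := by
    rintro ⟨u, v⟩ huv
    rw [mem_product] at huv
    obtain ⟨t, ht, L, hL, h1, h2, h3⟩ := h u huv.1 v huv.2
    simp only [mem_biUnion, mem_filter, mem_product, mem_inter]
    exact ⟨t, ht, L, ⟨hL, h1⟩, ⟨h2, huv.1⟩, h3, huv.2⟩
  have h1 : A.card * B.card ≤
      ∑ t ∈ T, ∑ L ∈ D.lines.filter (fun L => t ∈ L), (L ∩ A).card * (L ∩ B).card := by
    rw [← card_product]
    refine (card_le_card hsub).trans (card_biUnion_le.trans (sum_le_sum fun t _ => ?_))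
    refine card_biUnion_le.trans (sum_le_sum fun L _ => ?_)
    rw [card_product]
  have h2 : ∀ t ∈ T, 3 * ∑ L ∈ D.lines.filter (fun L => t ∈ L), (L ∩ A).card * (L ∩ B).card
      ≤ 2 * lam * (A.card + B.card) := by
    intro t ht
    have htA : t ∉ A := disjoint_left.mp hTA ht
    have htB : t ∉ B := disjoint_left.mp hTB ht
    have h3 : ∀ L ∈ D.lines.filter (fun L => t ∈ L),
        3 * ((L ∩ A).card * (L ∩ B).card) ≤ 2 * ((L ∩ A).card + (L ∩ B).card) := by
      intro L hL
      rw [mem_filter] at hL
      have h4 : (L ∩ A) ∪ (L ∩ B) ⊆ L.erase t := by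
        intro x
        simp only [mem_union, mem_inter, mem_erase]
        rintro (⟨h5, h6⟩ | ⟨h5, h6⟩)
        · exact ⟨by rintro rfl; exact htA h6, h5⟩
        · exact ⟨by rintro rfl; exact htB h6, h5⟩
      have h5 := card_le_card h4
      rw [card_union_of_disjoint (hAB.mono inter_subset_right inter_subset_right),
        card_erase_of_mem hL.2, D.card_line L hL.1] at h5
      generalize (L ∩ A).card = i at h5
      generalize (L ∩ B).card = j at h5
      have hi : i ≤ 3 := by omega
      have hj : j ≤ 3 := by omega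
      interval_cases i <;> interval_cases j <;> omega
    rw [mul_sum]
    refine (sum_le_sum h3).trans (le_of_eq ?_)
    rw [← mul_sum, sum_add_distrib, sum_inter D A htA, sum_inter D B htB]
    ring
  refine (Nat.mul_le_mul_left 3 h1).trans ?_
  rw [mul_sum]
  refine (sum_le_sum h2).trans (le_of_eq ?_)
  rw [sum_const, smul_eq_mul]
  ring

theorem arith_cover (a b M : ℕ) (ha : 0 < a) (h1 : a ≤ 2 * M) (h2 : b ≤ 2 * M)
    (h3 : 3 * (a * b) ≤ 2 * M * (a + b)) : a + b ≤ 3 * M := by
  by_cases c1 : 2 * a ≤ b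
  · omega
  by_cases c2 : 2 * b ≤ a
  · omega
  by_contra hlt
  have h4 : 3 * M < a + b := by omega
  have c1' : b < 2 * a := by omega
  have c2' : a < 2 * b := by omega
  zify at *
  nlinarith [mul_pos (sub_pos.mpr c1') (sub_pos.mpr c2'), mul_pos (sub_pos.mpr h4)
    (show (0 : ℤ) < a + b by omega)]

end Cover

variable [Fintype P]

/-- Connectivity of the graph of moves fixing `T` pointwise. -/
theorem closed_all (D : Design P lam) (T : Finset P)
    (hn : 3 * (T.card * lam) + T.card < Fintype.card P) (A : P → Prop)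
    {u₀ : P} (hu₀ : u₀ ∉ T) (hA₀ : A u₀)
    (hcl : ∀ u v, u ∉ T → v ∉ T → A u → (∀ t ∈ T, move D u v t = t) → A v) :
    ∀ v, v ∉ T → A v := by
  classical
  by_contra hcon
  push Not at hcon
  obtain ⟨v₀, hv₀, hAv₀⟩ := hcon
  set A' := Tᶜ.filter A with hA'
  set B' := Tᶜ.filter (fun v => ¬ A v) with hB'
  have hTA : Disjoint T A' := by
    rw [disjoint_left]; intro t ht; simp [hA', ht]
  have hTB : Disjoint T B' := by
    rw [disjoint_left]; intro t ht; simp [hB', ht]
  have hAB : Disjoint A' B' := disjoint_filter_filter_not _ _ _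
  have hsum : A'.card + B'.card = Fintype.card P - T.card := by
    rw [hA', hB', card_filter_add_card_filter_not, card_compl]
  have hcov : ∀ u ∈ A', ∀ v ∈ B', ∃ t ∈ T, ∃ L ∈ D.lines, t ∈ L ∧ u ∈ L ∧ v ∈ L := by
    intro u hu v hv
    simp only [hA', hB', mem_filter, mem_compl] at hu hv
    by_contra hno
    apply hv.2
    apply hcl u v hu.1 hv.1 hu.2
    intro t ht
    by_contra hne
    obtain ⟨L, hL, h1, h2, h3⟩ := exists_line_of_moved D (by rintro rfl; exact hu.1 ht)
      (by rintro rfl; exact hv.1 ht) hne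
    exact hno ⟨t, ht, L, hL, h3, h1, h2⟩
  have hu₀' : u₀ ∈ A' := by simp [hA', hu₀, hA₀]
  have hv₀' : v₀ ∈ B' := by simp [hB', hv₀, hAv₀]
  have d1 := cover_degree D T B' hu₀ (disjoint_left.mp hAB hu₀') hTB (hcov u₀ hu₀')
  have d2 := cover_degree D T A' hv₀ (disjoint_right.mp hAB hv₀') hTA (fun u hu => by
    obtain ⟨t, ht, L, hL, h1, h2, h3⟩ := hcov u hu v₀ hv₀'
    exact ⟨t, ht, L, hL, h1, h3, h2⟩)
  have d3 := cover_product D T A' B' hTA hTB hAB hcov
  have := arith_cover _ _ _ (card_pos.mpr ⟨u₀, hu₀'⟩) d2 d1 d3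
  omega

theorem conn (D : Design P lam) (T : Finset P)
    (hn : 3 * (T.card * lam) + T.card < Fintype.card P) {x y : P} (hx : x ∉ T) (hy : y ∉ T) :
    ∃ s, Reach D x y s ∧ ∀ t ∈ T, s t = t := by
  refine closed_all D T hn (fun v => ∃ s, Reach D x v s ∧ ∀ t ∈ T, s t = t) hx
    ⟨1, Reach.refl x, fun _ _ => rfl⟩ ?_ y hy
  rintro u v - - ⟨s, hs, hs'⟩ hm
  exact ⟨move D u v * s, hs.trans (Reach.single D u v), fun t ht => by
    rw [Perm.mul_apply, hs' t ht, hm t ht]⟩

/-- The pointwise stabiliser of `T` in the hole stabiliser at `x` is transitive on the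
remaining points. -/
theorem step (D : Design P lam) (T : Finset P)
    (hn : 3 * ((T.card + 1) * lam) + (T.card + 1) < Fintype.card P) {x a b : P}
    (hx : x ∉ T) (ha : a ∉ T) (hb : b ∉ T) (hax : a ≠ x) (hbx : b ≠ x) :
    ∃ s, Reach D x x s ∧ (∀ t ∈ T, s t = t) ∧ s a = b := by
  have hn' : 3 * (T.card * lam) + T.card < Fintype.card P := by nlinarith
  have key := closed_all D T hn'
    (fun v => ∀ y, y ∉ T → y ≠ v → ∃ s, Reach D x y s ∧ (∀ t ∈ T, s t = t) ∧ s a = v) ha ?_ ?_
  · exact key b hb x hx hbx.symm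
  · intro y hy hya
    obtain ⟨s, hs, hs'⟩ := conn D (insert a T) (by rwa [card_insert_of_notMem ha])
      (x := x) (y := y) (by simp [hx, hax.symm]) (by simp [hy, hya])
    exact ⟨s, hs, fun t ht => hs' t (mem_insert_of_mem ht), hs' a (mem_insert_self _ _)⟩
  · intro u v hu hv hAu hm y hy hyv
    by_cases huv : u = v
    · subst huv; exact hAu y hy hyv
    obtain ⟨s, hs, hs1, hs2⟩ := hAu v hv (Ne.symm huv)
    obtain ⟨r, hr, hr'⟩ := conn D (insert v T) (by rwa [card_insert_of_notMem hv])
      (x := u) (y := y) (by simp [hu, huv]) (by simp [hy, hyv])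
    refine ⟨r * (move D v u * s), (hs.trans (Reach.single D v u)).trans hr, ?_, ?_⟩
    · intro t ht
      rw [Perm.mul_apply, Perm.mul_apply, hs1 t ht, move_comm, hm t ht,
        hr' t (mem_insert_of_mem ht)]
    · rw [Perm.mul_apply, Perm.mul_apply, hs2, move_right, hr' v (mem_insert_self _ _)]

theorem four_trans (D : Design P lam) (hn : 12 * lam + 4 < Fintype.card P) {x : P}
    {a b c d a' b' c' d' : P} (xa : a ≠ x) (xb : b ≠ x) (xc : c ≠ x) (xd : d ≠ x)
    (xa' : a' ≠ x) (xb' : b' ≠ x) (xc' : c' ≠ x) (xd' : d' ≠ x)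
    (h1 : a ≠ b) (h2 : a ≠ c) (h3 : a ≠ d) (h4 : b ≠ c) (h5 : b ≠ d) (h6 : c ≠ d)
    (i1 : a' ≠ b') (i2 : a' ≠ c') (i3 : a' ≠ d') (i4 : b' ≠ c') (i5 : b' ≠ d') (i6 : c' ≠ d') :
    ∃ s, Reach D x x s ∧ s a = a' ∧ s b = b' ∧ s c = c' ∧ s d = d' := by
  have fx : ∀ {s : Perm P} {y : P}, Reach D x x s → y ≠ x → s y ≠ x := by
    intro s y hs hy h
    exact hy (s.injective (h.trans hs.apply.symm))
  obtain ⟨s1, r1, -, e1⟩ := step D ∅ (by simp; omega) (x := x) (a := a) (b := a')
    (by simp) (by simp) (by simp) xa xa'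
  obtain ⟨s2, r2, f2, e2⟩ := step D {a'} (by simp; omega) (x := x) (a := s1 b) (b := b')
    (by simp [xa'.symm]) (by rw [mem_singleton, ← e1]; exact fun h => h1 (s1.injective h).symm)
    (by simp [i1.symm]) (fx r1 xb) xb'
  have r12 := r1.trans r2
  have g1 : (s2 * s1) a = a' := by rw [Perm.mul_apply, e1, f2 a' (by simp)]
  have g2 : (s2 * s1) b = b' := by rw [Perm.mul_apply, e2]
  obtain ⟨s3, r3, f3, e3⟩ := step D {a', b'} (by rw [card_pair i1]; omega) (x := x)
    (a := (s2 * s1) c) (b := c') (by simp [xa'.symm, xb'.symm])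
    (by
      rw [mem_insert, mem_singleton, ← g1, ← g2, not_or]
      exact ⟨fun h => h2 ((s2 * s1).injective h).symm, fun h => h4 ((s2 * s1).injective h).symm⟩)
    (by simp [i2.symm, i4.symm]) (fx r12 xc) xc'
  have r123 := r12.trans r3
  have k1 : (s3 * (s2 * s1)) a = a' := by rw [Perm.mul_apply, g1, f3 a' (by simp)]
  have k2 : (s3 * (s2 * s1)) b = b' := by rw [Perm.mul_apply, g2, f3 b' (by simp)]
  have k3 : (s3 * (s2 * s1)) c = c' := by rw [Perm.mul_apply, e3]
  obtain ⟨s4, r4, f4, e4⟩ := step D {a', b', c'}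
    (by rw [card_eq_three.mpr ⟨a', b', c', i1, i2, i4, rfl⟩]; omega) (x := x)
    (a := (s3 * (s2 * s1)) d) (b := d') (by simp [xa'.symm, xb'.symm, xc'.symm])
    (by
      rw [mem_insert, mem_insert, mem_singleton, ← k1, ← k2, ← k3, not_or, not_or]
      exact ⟨fun h => h3 ((s3 * (s2 * s1)).injective h).symm,
        fun h => h5 ((s3 * (s2 * s1)).injective h).symm,
        fun h => h6 ((s3 * (s2 * s1)).injective h).symm⟩)
    (by simp [i3.symm, i5.symm, i6.symm]) (fx r123 xd) xd'
  refine ⟨s4 * (s3 * (s2 * s1)), r123.trans r4, ?_, ?_, ?_, ?_⟩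
  · rw [Perm.mul_apply, k1, f4 a' (by simp)]
  · rw [Perm.mul_apply, k2, f4 b' (by simp)]
  · rw [Perm.mul_apply, k3, f4 c' (by simp)]
  · rw [Perm.mul_apply, e4]

theorem support_move (D : Design P lam) {a b : P} (hab : a ≠ b) :
    (move D a b).support \ {a, b} =
      (D.lines.filter (fun L => a ∈ L ∧ b ∈ L)).biUnion (fun L => L \ {a, b}) := by
  ext c
  simp only [mem_sdiff, Perm.mem_support, mem_insert, mem_singleton, not_or, mem_biUnion,
    mem_filter]
  constructor
  · rintro ⟨h, h1, h2⟩
    obtain ⟨L, hL, h3, h4, h5⟩ := exists_line_of_moved D h1 h2 h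
    exact ⟨L, ⟨hL, h3, h4⟩, h5, h1, h2⟩
  · rintro ⟨L, ⟨hL, h3, h4⟩, h5, h1, h2⟩
    exact ⟨moved_of_line D hab h1 h2 hL h3 h4 h5, h1, h2⟩

theorem card_nb (D : Design P lam) {a b : P} (hab : a ≠ b) :
    ((move D a b).support \ {a, b}).card = 2 * lam := by
  have hs : ∀ L ∈ D.lines.filter (fun L => a ∈ L ∧ b ∈ L), ({a, b} : Finset P) ⊆ L := by
    intro L hL x
    rw [mem_filter] at hL
    simp only [mem_insert, mem_singleton]
    rintro (rfl | rfl)
    · exact hL.2.1
    · exact hL.2.2
  rw [support_move D hab, card_biUnion]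
  · have h2 : ∀ L ∈ D.lines.filter (fun L => a ∈ L ∧ b ∈ L), (L \ {a, b}).card = 2 := by
      intro L hL
      rw [card_sdiff_of_subset (hs L hL), D.card_line L (mem_filter.mp hL).1, card_pair hab]
    rw [sum_congr rfl h2, sum_const, D.pair a b hab, smul_eq_mul, mul_comm]
  · intro L hL M hM hLM
    have hL' := hs L hL
    have hM' := hs M hM
    have h2 := D.simple L (mem_filter.mp hL).1 M (mem_filter.mp hM).1 hLM
    have h3 : ({a, b} : Finset P) = L ∩ M :=
      eq_of_subset_of_card_le (subset_inter hL' hM') (by rw [card_pair hab]; exact h2)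
    simp only [Function.onFun]
    rw [disjoint_left]
    intro c hc hc'
    rw [mem_sdiff] at hc hc'
    apply hc.2
    rw [h3]
    exact mem_inter.mpr ⟨hc.1, hc'.1⟩

theorem card_support_move (D : Design P lam) {a b : P} (hab : a ≠ b) :
    (move D a b).support.card = 2 * lam + 2 := by
  have hs : ({a, b} : Finset P) ⊆ (move D a b).support := by
    intro x
    simp only [mem_insert, mem_singleton, Perm.mem_support]
    rintro (rfl | rfl)
    · rw [move_left]; exact hab.symm
    · rw [move_right]; exact hab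
  have h1 := card_nb D hab
  have h2 := card_le_card hs
  rw [card_sdiff_of_subset hs, card_pair hab] at h1
  rw [card_pair hab] at h2
  omega

theorem sign_move (D : Design P lam) {a b : P} (hab : a ≠ b) :
    Perm.sign (move D a b) = (-1) ^ (lam + 1) := by
  rw [Perm.sign_of_pow_two_eq_one (by rw [pow_two, move_mul_self])]
  congr 1
  have h1 : Fintype.card (Function.fixedPoints (move D a b)) = (move D a b).supportᶜ.card := by
    rw [← Fintype.card_coe]
    apply Fintype.card_congr
    apply Equiv.subtypeEquivRight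
    intro c
    simp [Function.IsFixedPt]
  rw [h1, card_compl, card_support_move D hab]
  have := card_le_univ (move D a b).support
  rw [card_support_move D hab] at this
  omega

/-- An element of the hole stabiliser with small support. -/
theorem exists_small (D : Design P lam) (hn : 2 * lam + 2 < Fintype.card P) (x : P) :
    ∃ s, Reach D x x s ∧ s ≠ 1 ∧ s.support.card ≤ 6 * lam + 2 ∧
      Perm.sign s = (-1) ^ (lam + 1) := by
  obtain ⟨a, ha⟩ : ∃ a, a ≠ x := by
    have : 1 < Fintype.card P := by omega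
    exact Fintype.exists_ne_of_one_lt_card this x
  obtain ⟨b, hb⟩ : (move D x a).supportᶜ.Nonempty := by
    rw [← card_pos, card_compl, card_support_move D ha.symm]; omega
  have hb' : move D x a b = b := by simpa using hb
  have hbx : b ≠ x := by
    rintro rfl; rw [move_left] at hb'; exact ha hb'
  have hba : b ≠ a := by
    rintro rfl; rw [move_right] at hb'; exact ha hb'.symm
  have hfix : move D a b x = x := by
    by_contra h
    obtain ⟨L, hL, h1, h2, h3⟩ := exists_line_of_moved D ha.symm hbx.symm h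
    exact moved_of_line D ha.symm hbx hba hL h3 h1 h2 hb'
  have hr : Reach D x x (move D b x * (move D a b * move D x a)) :=
    ((Reach.single D x a).trans (Reach.single D a b)).trans (Reach.single D b x)
  refine ⟨_, hr, ?_, ?_, ?_⟩
  · intro h
    have : (move D b x * (move D a b * move D x a)) a = b := by
      rw [Perm.mul_apply, Perm.mul_apply, move_right, hfix, move_right]
    rw [h] at this
    exact hba this.symm
  · have hsub : (move D b x * (move D a b * move D x a)).support ⊆
        ({a, b} : Finset P) ∪ (move D x a).support \ {x, a} ∪ (move D a b).support \ {a, b}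
          ∪ (move D b x).support \ {b, x} := by
      intro c hc
      rw [Perm.mem_support] at hc
      have hcx : c ≠ x := by rintro rfl; exact hc hr.apply
      by_contra hn
      simp only [mem_union, mem_insert, mem_singleton, mem_sdiff, Perm.mem_support, not_or,
        not_and, not_not] at hn
      obtain ⟨⟨⟨⟨h1, h2⟩, h3⟩, h4⟩, h5⟩ := hn
      apply hc
      have e1 : move D x a c = c := by by_contra h; exact h1 (h3 h hcx)
      have e2 : move D a b c = c := by by_contra h; exact h2 (h4 h h1)
      have e3 : move D b x c = c := by by_contra h; exact hcx (h5 h h2)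
      rw [Perm.mul_apply, Perm.mul_apply, e1, e2, e3]
    have c0 : ({a, b} : Finset P).card ≤ 2 := card_le_two
    have c1 := card_nb D ha.symm
    have c2 := card_nb D hba.symm
    have c3 := card_nb D hbx
    have u1 := card_union_le (({a, b} : Finset P) ∪ (move D x a).support \ {x, a}
      ∪ (move D a b).support \ {a, b}) ((move D b x).support \ {b, x})
    have u2 := card_union_le (({a, b} : Finset P) ∪ (move D x a).support \ {x, a})
      ((move D a b).support \ {a, b})
    have u3 := card_union_le ({a, b} : Finset P) ((move D x a).support \ {x, a})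
    have := card_le_card hsub
    omega
  · rw [Perm.sign_mul, Perm.sign_mul, sign_move D hbx, sign_move D hba.symm, sign_move D ha.symm,
      Int.units_mul_self, mul_one]

end Pool.Agent.Conway
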