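import Mathlib
import Pool.Agent.P.MP_917f1f_al.Trans

/-!
# The Conway groupoid of a design with many points
-/

namespace Pool.Agent.Conway

open Finset Equiv

variable {P : Type*} [DecidableEq P] {lam : ℕ}

/-- The hole stabiliser at `x` as a subgroup. -/
def hole (D : Design P lam) (x : P) : Subgroup (Perm P) where
  carrier := {s | Reach D x x s}
  mul_mem' := fun hs ht => Reach.trans ht hs
  one_mem' := Reach.refl x
  inv_mem' := fun hs => Reach.symm hs

variable [Fintype P]

theorem fix_iff {s : Perm P} {x : P} (h : s x = x) (y : P) : s y ≠ x ↔ y ≠ x := by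
  constructor
  · intro h1 h2; apply h1; rw [h2, h]
  · intro h1 h2; exact h1 (s.injective (h2.trans h.symm))

theorem ofSubtype_restrict {s : Perm P} {x : P} (h : s x = x) :
    Perm.ofSubtype (s.subtypePerm (p := fun y => y ≠ x) (fix_iff h)) = s :=
  Perm.ofSubtype_subtypePerm _ (by intro y hy hyx; apply hy; rw [hyx, h])

/-- If the restriction of the hole stabiliser contains the alternating group, the groupoid is
the alternating or the symmetric group. -/
theorem groupoid_of_alt (D : Design P lam) (hn : 2 * lam + 2 < Fintype.card P) (x : P)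
    (halt : alternatingGroup {y // y ≠ x} ≤ (hole D x).comap Perm.ofSubtype) (s : Perm P) :
    s ∈ groupoid D x ↔ (Even lam ∨ Perm.sign s = 1) := by
  have heven : ∀ r : Perm P, r x = x → Perm.sign r = 1 → Reach D x x r := by
    intro r hr hsign
    have h1 : r.subtypePerm (p := fun y => y ≠ x) (fix_iff hr) ∈ alternatingGroup {y // y ≠ x} := by
      rw [Perm.mem_alternatingGroup, ← Perm.sign_ofSubtype, ofSubtype_restrict hr, hsign]
    have h2 := halt h1
    rw [Subgroup.mem_comap, ofSubtype_restrict hr] at h2
    exact h2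
  rw [mem_groupoid_iff]
  constructor
  · rintro ⟨z, hz⟩
    rcases Nat.even_or_odd lam with h | h
    · exact Or.inl h
    · right
      clear halt heven
      induction hz with
      | refl x => simp
      | cons x y _ ih =>
        rw [Perm.sign_mul, ih, one_mul]
        by_cases hxy : x = y
        · rw [hxy, move_self]; simp
        · rw [sign_move D hxy, (h.add_one).neg_one_pow]
  · intro h
    have hfix : (move D x (s x) * s) x = x := by rw [Perm.mul_apply, move_right]
    have hs : s = move D x (s x) * (move D x (s x) * s) := by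
      rw [← mul_assoc, move_mul_self, one_mul]
    suffices hr : Reach D x x (move D x (s x) * s) by
      refine ⟨s x, ?_⟩
      have := hr.trans (Reach.single D x (s x))
      rwa [← hs] at this
    rcases Nat.even_or_odd lam with hl | hl
    · obtain ⟨g, hg, -, -, hsg⟩ := exists_small D hn x
      rw [(hl.add_one).neg_one_pow] at hsg
      rcases Int.units_eq_one_or (Perm.sign (move D x (s x) * s)) with h1 | h1
      · exact heven _ hfix h1
      · have h2 : Reach D x x (g⁻¹ * (move D x (s x) * s)) := by
          apply heven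
          · rw [Perm.mul_apply, hfix, hg.symm.apply]
          · rw [Perm.sign_mul, Perm.sign_inv, hsg, h1]; simp
        have h3 := h2.trans hg
        rwa [mul_inv_cancel_left] at h3
    · apply heven _ hfix
      have h1 : Perm.sign s = 1 := h.resolve_left (Nat.not_even_iff_odd.mpr hl)
      rw [Perm.sign_mul, h1, mul_one]
      by_cases hxy : x = s x
      · rw [← hxy, move_self]; simp
      · rw [sign_move D hxy, (hl.add_one).neg_one_pow]

theorem alt_le_hole (D : Design P lam) (hl : 1 ≤ lam) (hn : 12 * lam + 9 ≤ Fintype.card P)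
    (x : P) : alternatingGroup {y // y ≠ x} ≤ (hole D x).comap Perm.ofSubtype := by
  have hc : Fintype.card {y // y ≠ x} = Fintype.card P - 1 := by
    simp [Fintype.card_subtype_compl]
  obtain ⟨g, hg, hg1, hsupp, -⟩ := exists_small D (by omega) x
  have hgx := hg.apply
  apply alt_le_of_four (g := g.subtypePerm (p := fun y => y ≠ x) (fix_iff hgx))
  · rintro ⟨a, xa⟩ ⟨b, xb⟩ ⟨c, xc⟩ ⟨d, xd⟩ ⟨a', xa'⟩ ⟨b', xb'⟩ ⟨c', xc'⟩ ⟨d', xd'⟩
      h1 h2 h3 h4 h5 h6 i1 i2 i3 i4 i5 i6
    simp only [ne_eq, Subtype.mk.injEq] at h1 h2 h3 h4 h5 h6 i1 i2 i3 i4 i5 i6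
    obtain ⟨s, hs, e1, e2, e3, e4⟩ := four_trans D (by omega) xa xb xc xd xa' xb' xc' xd'
      h1 h2 h3 h4 h5 h6 i1 i2 i3 i4 i5 i6
    refine ⟨s.subtypePerm (p := fun y => y ≠ x) (fix_iff hs.apply), ?_, ?_, ?_, ?_, ?_⟩
    · rw [Subgroup.mem_comap, ofSubtype_restrict hs.apply]; exact hs
    · exact Subtype.ext e1
    · exact Subtype.ext e2
    · exact Subtype.ext e3
    · exact Subtype.ext e4
  · omega
  · rw [Subgroup.mem_comap, ofSubtype_restrict hgx]; exact hg
  · intro h
    apply hg1
    rw [← ofSubtype_restrict hgx, h, map_one]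
  · have h1 := Perm.support_ofSubtype (g.subtypePerm (p := fun y => y ≠ x) (fix_iff hgx))
    rw [ofSubtype_restrict hgx] at h1
    rw [h1, card_map] at hsupp
    omega

end Pool.Agent.Conway
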